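import Pool.Agent.P.MP_ab9b82_gt.All

open MeasureTheory Set Filter Pool.Agent.P.MP_ab9b82_gt

/-- A complete metric on `ℝ³` with nonnegative Ricci curvature, Euclidean volume growth and
quadratic curvature decay, and volumes tending to infinity, each with two distinct isoperimetric
sets whose boundaries are not isometric. -/
theorem Pool.Agent.Results.MP_ab9b82_gt.NonIsometric.result :
    ∃ (g : Met) (Γ : V → V → V → V), IsRiem g ∧ IsLC g Γ ∧ IsCompleteMet g ∧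
      (∀ x v, 0 ≤ ric Γ x v v) ∧
      (∃ c > (0 : ℝ), ∀ r > (0 : ℝ),
        ENNReal.ofReal (c * r ^ 3) ≤ vol g {x | idist g univ 0 x < ENNReal.ofReal r}) ∧
      (∃ C > (0 : ℝ), ∀ x u v w z, ev g x u u ≤ 1 → ev g x v v ≤ 1 → ev g x w w ≤ 1 →
        ev g x z z ≤ 1 → |ev g x (riem Γ x u v w) z| ≤ C / (1 + (idist g univ 0 x).toReal) ^ 2) ∧
      ∃ W : ℕ → ℝ, (∀ i, 0 < W i) ∧ Tendsto W atTop atTop ∧ ∀ i, ∃ E E' : Set V,
        IsIsop g (W i) E ∧ IsIsop g (W i) E' ∧ 0 < vol g (symmDiff E E') ∧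
        ¬Isom g (bdry g E) (bdry g E') := by
  obtain ⟨g, Γ, h1, h2, h3⟩ := final
  exact ⟨g, Γ, h1.isRiem, h2, h3⟩
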